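import Mathlib

set_option autoImplicit false

/-!
# Restricted partition functions mod 2: periods, means, and the squaring recursion
-/

namespace Pool.Agent.Q51.PD

open Finset PowerSeries

/-- the geometric series `1/(1 - X^b)` -/
noncomputable def gs (b : ℕ) : (ZMod 2)⟦X⟧ := PowerSeries.mk fun n => if b ∣ n then 1 else 0

lemma gs_mul {b : ℕ} (hb : 1 ≤ b) : (1 - (X : (ZMod 2)⟦X⟧) ^ b) * gs b = 1 := by
  ext n
  rw [sub_mul, one_mul, map_sub, coeff_X_pow_mul', gs, coeff_mk, coeff_one]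
  by_cases h : b ≤ n
  · rw [if_pos h, coeff_mk]
    have h1 : b ∣ n - b ↔ b ∣ n := by
      constructor
      · intro h2
        have := Nat.dvd_add h2 (dvd_refl b)
        rwa [Nat.sub_add_cancel h] at this
      · intro h2; exact Nat.dvd_sub h2 (dvd_refl b)
    simp only [h1]
    rw [if_neg (show ¬ n = 0 by omega)]
    ring
  · rw [if_neg h]
    rcases Nat.eq_zero_or_pos n with h0 | h0
    · subst h0; simp
    · rw [if_neg (fun h1 => h (Nat.le_of_dvd h0 h1)), if_neg (by omega)]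
      ring

lemma coeff_gs_add {b : ℕ} (hb : 1 ≤ b) (Q : (ZMod 2)⟦X⟧) (n : ℕ) :
    coeff (n + b) (gs b * Q) = coeff n (gs b * Q) + coeff (n + b) Q := by
  have h : Q = gs b * Q - X ^ b * (gs b * Q) := by
    calc Q = ((1 - X ^ b) * gs b) * Q := by rw [gs_mul hb, one_mul]
      _ = gs b * Q - X ^ b * (gs b * Q) := by ring
  have h2 : coeff (n + b) Q = coeff (n + b) (gs b * Q) - coeff n (gs b * Q) := by
    conv_lhs => rw [h]
    rw [map_sub, coeff_X_pow_mul]
  rw [h2]; ring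

lemma coeff_gs_lt {b : ℕ} (hb : 1 ≤ b) (Q : (ZMod 2)⟦X⟧) {n : ℕ} (hn : n < b) :
    coeff n (gs b * Q) = coeff n Q := by
  have h : Q = gs b * Q - X ^ b * (gs b * Q) := by
    calc Q = ((1 - X ^ b) * gs b) * Q := by rw [gs_mul hb, one_mul]
      _ = gs b * Q - X ^ b * (gs b * Q) := by ring
  conv_rhs => rw [h]
  rw [map_sub, coeff_X_pow_mul', if_neg (by omega), sub_zero]

/-! ### Periods -/

/-- difference operator (mod 2) -/
def D (L : ℕ) (f : ℕ → ZMod 2) : ℕ → ZMod 2 := fun n => f (n + L) + f n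

lemma D_D (L : ℕ) (f : ℕ → ZMod 2) : D L (D L f) = D (2 * L) f := by
  funext n
  unfold D
  have h2 : ∀ x : ZMod 2, x + x = 0 := by decide
  have h3 : n + L + L = n + 2 * L := by ring
  rw [h3]
  calc f (n + 2 * L) + f (n + L) + (f (n + L) + f n)
      = f (n + 2 * L) + (f (n + L) + f (n + L)) + f n := by ring
    _ = f (n + 2 * L) + f n := by rw [h2, add_zero]

lemma D_iter_pow (L : ℕ) (s : ℕ) : ∀ f : ℕ → ZMod 2, (D L)^[2 ^ s] f = D (2 ^ s * L) f := by
  induction s with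
  | zero => intro f; simp
  | succ s ih =>
    intro f
    rw [pow_succ, mul_two, Function.iterate_add_apply, ih, ih, D_D]
    congr 1
    ring

lemma D_zero_fun (L : ℕ) (c : ℕ) : (D L)^[c] (fun _ => 0) = fun _ => 0 := by
  induction c with
  | zero => rfl
  | succ c ih => rw [Function.iterate_succ_apply', ih]; funext n; simp [D]

lemma period_of_iter {L c s : ℕ} {f : ℕ → ZMod 2} (h : ∀ n, (D L)^[c] f n = 0)
    (hc : c ≤ 2 ^ s) (n : ℕ) : f (n + 2 ^ s * L) = f n := by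
  have h1 : (D L)^[c] f = fun _ => 0 := funext h
  have h2 : (D L)^[2 ^ s] f = fun _ => 0 := by
    obtain ⟨d, hd⟩ := Nat.exists_eq_add_of_le' hc
    rw [hd, Function.iterate_add_apply, h1, D_zero_fun]
  rw [D_iter_pow] at h2
  have h3 := congrFun h2 n
  unfold D at h3
  have : ∀ x y : ZMod 2, x + y = 0 → x = y := by decide
  exact this _ _ h3

lemma D_iter_sum (L : ℕ) (c : ℕ) (s : Finset ℕ) (m : ℕ → ℕ) : ∀ (f g : ℕ → ZMod 2),
    (∀ n, g n = ∑ j ∈ s, f (n + m j)) →
    ∀ n, (D L)^[c] g n = ∑ j ∈ s, (D L)^[c] f (n + m j) := by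
  induction c with
  | zero => intro f g h n; exact h n
  | succ c ih =>
    intro f g h n
    rw [Function.iterate_succ_apply]
    rw [ih (D L f) (D L g) (fun n => ?_) n]
    · rfl
    · unfold D
      rw [h, h, ← Finset.sum_add_distrib]
      apply Finset.sum_congr rfl
      intro j _
      rw [show n + L + m j = n + m j + L by ring]

lemma D_gs {b L : ℕ} (hb : 1 ≤ b) (hL : b ∣ L) (Q : (ZMod 2)⟦X⟧) (n : ℕ) :
    D L (fun n => coeff n (gs b * Q)) n =
      ∑ j ∈ range (L / b), (fun n => coeff n Q) (n + (b * j + b)) := by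
  obtain ⟨d, rfl⟩ := hL
  rw [Nat.mul_div_cancel_left d (by omega)]
  unfold D
  have h2 : ∀ x : ZMod 2, x + x = 0 := by decide
  induction d with
  | zero => simp [h2]
  | succ d ih =>
    rw [Finset.sum_range_succ, ← ih]
    have h3 : n + b * (d + 1) = (n + b * d) + b := by ring
    have h4 : n + (b * d + b) = (n + b * d) + b := by ring
    simp only [h3, h4, coeff_gs_add hb]
    ring

lemma step_iter {b L c : ℕ} (hb : 1 ≤ b) (hL : b ∣ L) (Q : (ZMod 2)⟦X⟧)
    (h : ∀ n, (D L)^[c] (fun n => coeff n Q) (n + 1) = 0) (n : ℕ) :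
    (D L)^[c + 1] (fun n => coeff n (gs b * Q)) n = 0 := by
  rw [Function.iterate_succ_apply,
    D_iter_sum L c (range (L / b)) (fun j => b * j + b) (fun n => coeff n Q) _ (D_gs hb hL Q) n]
  apply Finset.sum_eq_zero
  intro j _
  have h3 : n + (b * j + b) = (n + (b * j + b) - 1) + 1 := by omega
  rw [h3]
  exact h _

/-- generating function of the parts `a 0, ..., a (k-1)` and `m` parts equal to `1` -/
noncomputable def P (a : ℕ → ℕ) (k m : ℕ) : (ZMod 2)⟦X⟧ := (∏ i ∈ range k, gs (a i)) * gs 1 ^ m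

lemma P_succ_left (a : ℕ → ℕ) (k m : ℕ) : P a (k + 1) m = gs (a k) * P a k m := by
  unfold P; rw [Finset.prod_range_succ]; ring

lemma P_succ_right (a : ℕ → ℕ) (k m : ℕ) : P a k (m + 1) = gs 1 * P a k m := by
  unfold P; ring

lemma P_iter' (a : ℕ → ℕ) (ha : ∀ i, 1 ≤ a i) (L : ℕ) (k m : ℕ) (hL : ∀ i < k, a i ∣ L) (n : ℕ) :
    (D L)^[k + m] (fun n => coeff n (P a k m)) (n + 1) = 0 := by
  induction k generalizing n with
  | zero =>
    induction m generalizing n with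
    | zero =>
      simp [P, coeff_one]
    | succ m ih =>
      simp only [P_succ_right]
      rw [← add_assoc]
      exact step_iter le_rfl (one_dvd _) _ ih _
  | succ k ih =>
    simp only [P_succ_left]
    rw [show k + 1 + m = k + m + 1 by ring]
    exact step_iter (ha k) (hL k (by omega)) _ (ih fun i hi => hL i (by omega)) _

lemma P_iter (a : ℕ → ℕ) (ha : ∀ i, 1 ≤ a i) (L : ℕ) (k m : ℕ) (hL : ∀ i < k, a i ∣ L)
    (hkm : 1 ≤ k + m) (n : ℕ) :
    (D L)^[k + m] (fun n => coeff n (P a k m)) n = 0 := by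
  rcases Nat.eq_zero_or_pos k with h0 | h0
  · obtain ⟨m', rfl⟩ : ∃ m', m = m' + 1 := ⟨m - 1, by omega⟩
    simp only [P_succ_right]
    rw [← add_assoc]
    exact step_iter le_rfl (one_dvd _) _
      (P_iter' a ha L k m' hL) _
  · obtain ⟨k', rfl⟩ : ∃ k', k = k' + 1 := ⟨k - 1, by omega⟩
    simp only [P_succ_left]
    rw [show k' + 1 + m = k' + m + 1 by ring]
    exact step_iter (ha k') (hL k' (by omega)) _
      (P_iter' a ha L k' m fun i hi => hL i (by omega)) _

lemma P_period (a : ℕ → ℕ) (ha : ∀ i, 1 ≤ a i) (L : ℕ) (k m s : ℕ) (hL : ∀ i < k, a i ∣ L)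
    (hkm : 1 ≤ k + m) (hs : k + m ≤ 2 ^ s) (n : ℕ) :
    coeff (n + 2 ^ s * L) (P a k m) = coeff n (P a k m) :=
  period_of_iter (P_iter a ha L k m hL hkm) hs n

/-! ### Means -/

/-- `f` is periodic with mean `E` -/
def HasMean (f : ℕ → ℝ) (E : ℝ) : Prop :=
  ∃ T : ℕ, 0 < T ∧ (∀ n, f (n + T) = f n) ∧ ∑ n ∈ range T, f n = T * E

lemma periodic_mul {f : ℕ → ℝ} {T : ℕ} (h : ∀ n, f (n + T) = f n) (M n : ℕ) :
    f (n + M * T) = f n := by
  induction M with
  | zero => simp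
  | succ M ih => rw [show n + (M + 1) * T = (n + M * T) + T by ring, h, ih]

lemma sum_mul_period {f : ℕ → ℝ} {T : ℕ} (h : ∀ n, f (n + T) = f n) (M : ℕ) :
    ∑ n ∈ range (M * T), f n = M * ∑ n ∈ range T, f n := by
  induction M with
  | zero => simp
  | succ M ih =>
    rw [Nat.succ_mul, Finset.sum_range_add, ih]
    have : ∀ x, f (M * T + x) = f x := fun x => by rw [add_comm]; exact periodic_mul h M x
    simp only [this]
    push_cast; ring

lemma sum_shift {f : ℕ → ℝ} {T : ℕ} (h : ∀ n, f (n + T) = f n) (v : ℕ) :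
    ∑ n ∈ range T, f (n + v) = ∑ n ∈ range T, f n := by
  induction v with
  | zero => simp
  | succ v ih =>
    have h1 := Finset.sum_range_succ (fun n => f (n + v)) T
    have h2 := Finset.sum_range_succ' (fun n => f (n + v)) T
    have h3 : ∀ n, f (n + 1 + v) = f (n + (v + 1)) := fun n => by congr 1; ring
    simp only [h3, zero_add] at h2
    have h4 : f (T + v) = f v := by rw [add_comm]; exact h v
    rw [h1, h4] at h2
    linarith

lemma HasMean.unique {f : ℕ → ℝ} {E E' : ℝ} (h : HasMean f E) (h' : HasMean f E') : E = E' := by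
  obtain ⟨T, hT, h1, h2⟩ := h
  obtain ⟨T', hT', h1', h2'⟩ := h'
  have h3 := sum_mul_period h1 T'
  have h3' := sum_mul_period h1' T
  rw [h2] at h3
  rw [h2', mul_comm T T'] at h3'
  rw [h3] at h3'
  have hT0 : (0 : ℝ) < T := by exact_mod_cast hT
  have hT0' : (0 : ℝ) < T' := by exact_mod_cast hT'
  have h5 : (T' * T : ℝ) * (E - E') = 0 := by linarith
  rcases mul_eq_zero.1 h5 with h4 | h4
  · exact absurd h4 (mul_pos hT0' hT0).ne'
  · linarith

lemma HasMean.sum {f : ℕ → ℝ} {E : ℝ} (h : HasMean f E) : ∃ T : ℕ, 0 < T ∧ ∀ M : ℕ,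
    (∀ n, f (n + M * T) = f n) ∧ ∑ n ∈ range (M * T), f n = (M * T) * E := by
  obtain ⟨T, hT, h1, h2⟩ := h
  refine ⟨T, hT, fun M => ⟨fun n => periodic_mul h1 M n, ?_⟩⟩
  rw [sum_mul_period h1, h2]; ring

lemma sum_block (f : ℕ → ℝ) (A M : ℕ) :
    ∑ n ∈ range (M * A), f n = ∑ u ∈ range M, ∑ v ∈ range A, f (u * A + v) := by
  induction M with
  | zero => simp
  | succ M ih => rw [Nat.succ_mul, Finset.sum_range_add, ih, Finset.sum_range_succ]

lemma mean_step {T q : ℕ} (hT : 0 < T) {g w : ℕ → ℝ} (hg : ∀ n, g (n + T) = g n) {G : ℝ}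
    (hG : ∑ n ∈ range T, g n = T * G)
    (hw : ∀ u v, v < q * T + 1 → w (u * (q * T + 1) + v) = g (u + v) * (if v = 0 then 1 else g (v - 1))) :
    HasMean w (G ^ 2 + G * (1 - G) / ((q * T + 1 : ℕ) : ℝ)) := by
  set A := q * T + 1 with hA
  have hA0 : 0 < A := by omega
  refine ⟨T * A, Nat.mul_pos hT hA0, fun n => ?_, ?_⟩
  · have h1 : n = (n / A) * A + n % A := (Nat.div_add_mod' n A).symm
    have h2 : n + T * A = (n / A + T) * A + n % A := by
      conv_lhs => rw [h1]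
      ring
    rw [h2, hw _ _ (Nat.mod_lt _ hA0)]
    conv_rhs => rw [h1, hw _ _ (Nat.mod_lt _ hA0)]
    rw [show n / A + T + n % A = (n / A + n % A) + T by ring, hg]
  · rw [sum_block]
    have h1 : ∀ u ∈ range T, ∑ v ∈ range A, w (u * A + v) =
        ∑ v ∈ range A, g (u + v) * (if v = 0 then 1 else g (v - 1)) := by
      intro u _
      apply Finset.sum_congr rfl
      intro v hv
      exact hw u v (Finset.mem_range.1 hv)
    rw [Finset.sum_congr rfl h1, Finset.sum_comm]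
    have h2 : ∀ v ∈ range A, ∑ u ∈ range T, g (u + v) * (if v = 0 then (1 : ℝ) else g (v - 1)) =
        (T * G) * (if v = 0 then 1 else g (v - 1)) := by
      intro v _
      rw [← Finset.sum_mul, sum_shift hg v, hG]
    rw [Finset.sum_congr rfl h2, ← Finset.mul_sum, hA, Finset.sum_range_succ']
    simp only [if_true, Nat.add_sub_cancel]
    have h3 : ∀ v : ℕ, (if v + 1 = 0 then (1 : ℝ) else g v) = g v := fun v => by simp
    simp only [h3]
    rw [sum_mul_period hg, hG]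
    have hA1 : ((q * T + 1 : ℕ) : ℝ) ≠ 0 := by positivity
    field_simp
    push_cast
    ring

lemma mean_ineq {f g : ℕ → ℝ} {e e' : ℝ} {b : ℕ} (hf : HasMean f e) (hg : HasMean g e')
    (h : ∀ n, f (n + b) = g (n + b) * g n) (hg1 : ∀ n, |g n| ≤ 1) : (1 - e) / 2 ≤ 1 - |e'| := by
  obtain ⟨T, hT, h1⟩ := hf.sum
  obtain ⟨T', hT', h1'⟩ := hg.sum
  obtain ⟨h2, h3⟩ := h1 T'
  obtain ⟨h2', h3'⟩ := h1' T
  rw [mul_comm T T'] at h2' h3'
  set N := T' * T with hN
  have hN0 : (0 : ℝ) < N := by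
    have : 0 < N := Nat.mul_pos hT' hT
    exact_mod_cast this
  have hNc : (T' : ℝ) * T = N := by rw [hN]; push_cast; ring
  have hNc' : (T : ℝ) * T' = N := by rw [hN]; push_cast; ring
  rw [hNc] at h3
  rw [hNc'] at h3'
  have h4 : ∑ n ∈ range N, f (n + b) = N * e := by rw [sum_shift h2, h3]
  have h5 : ∑ n ∈ range N, g (n + b) = N * e' := by rw [sum_shift h2', h3']
  have h6 : 0 ≤ ∑ n ∈ range N, (1 - g (n + b) - g n + f (n + b)) := by
    apply Finset.sum_nonneg
    intro n _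
    rw [h]
    have h7 := abs_le.1 (hg1 (n + b))
    have h8 := abs_le.1 (hg1 n)
    nlinarith
  have h7 : 0 ≤ ∑ n ∈ range N, (1 + g (n + b) + g n + f (n + b)) := by
    apply Finset.sum_nonneg
    intro n _
    rw [h]
    have h7 := abs_le.1 (hg1 (n + b))
    have h8 := abs_le.1 (hg1 n)
    nlinarith
  rw [Finset.sum_add_distrib, Finset.sum_sub_distrib, Finset.sum_sub_distrib, h4, h5, h3'] at h6
  rw [Finset.sum_add_distrib, Finset.sum_add_distrib, Finset.sum_add_distrib, h4, h5, h3'] at h7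
  simp only [Finset.sum_const, Finset.card_range, nsmul_eq_mul, mul_one] at h6 h7
  have h8 : 0 ≤ (N : ℝ) * (1 - 2 * e' + e) := by linarith
  have h9 : 0 ≤ (N : ℝ) * (1 + 2 * e' + e) := by linarith
  have h10 := nonneg_of_mul_nonneg_right h8 hN0
  have h11 := nonneg_of_mul_nonneg_right h9 hN0
  rcases abs_cases e' with ⟨h12, _⟩ | ⟨h12, _⟩ <;> rw [h12] <;> linarith

/-! ### Signs -/

/-- the sign `(-1)^x` -/
noncomputable def sg (x : ZMod 2) : ℝ := if x = 0 then 1 else -1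

lemma sg_add (x y : ZMod 2) : sg (x + y) = sg x * sg y := by
  have h : ∀ x : ZMod 2, x = 0 ∨ x = 1 := by decide
  have h1 : (1 : ZMod 2) + 1 = 0 := by decide
  have h2 : ¬ (1 : ZMod 2) = 0 := by decide
  rcases h x with rfl | rfl <;> rcases h y with rfl | rfl <;> simp [sg, h1]

lemma sg_sq (x : ZMod 2) : sg x * sg x = 1 := by
  unfold sg; split_ifs <;> norm_num

lemma sg_abs (x : ZMod 2) : |sg x| = 1 := by
  unfold sg; split_ifs <;> norm_num

lemma sg_zero : sg 0 = 1 := by simp [sg]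

lemma coeff_gs_block {A : ℕ} (hA : 1 ≤ A) (Q : (ZMod 2)⟦X⟧) (u v : ℕ) (hv : v < A) :
    coeff (u * A + v) (gs A * Q) = ∑ i ∈ range (u + 1), coeff (i * A + v) Q := by
  induction u with
  | zero => simp [coeff_gs_lt hA Q hv]
  | succ u ih =>
    rw [Finset.sum_range_succ, ← ih, show (u + 1) * A + v = (u * A + v) + A by ring,
      coeff_gs_add hA]

lemma coeff_gs_one (Q : (ZMod 2)⟦X⟧) (n : ℕ) :
    coeff n (gs 1 * Q) = ∑ i ∈ range (n + 1), coeff i Q := by
  have := coeff_gs_block le_rfl Q n 0 Nat.zero_lt_one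
  simpa using this

lemma coeff_block {T q : ℕ} (Q : (ZMod 2)⟦X⟧) (hQ : ∀ n, coeff (n + T) Q = coeff n Q)
    (u v : ℕ) (hv : v < q * T + 1) :
    sg (coeff (u * (q * T + 1) + v) (gs (q * T + 1) * Q)) =
      sg (coeff (u + v) (gs 1 * Q)) * (if v = 0 then 1 else sg (coeff (v - 1) (gs 1 * Q))) := by
  have hper : ∀ M n, coeff (n + M * T) Q = coeff n Q := by
    intro M n
    induction M with
    | zero => simp
    | succ M ih => rw [show n + (M + 1) * T = (n + M * T) + T by ring, hQ, ih]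
  rw [coeff_gs_block (by omega) Q u v hv]
  have h1 : ∀ i ∈ range (u + 1), coeff (i * (q * T + 1) + v) Q = coeff (v + i) Q := by
    intro i _
    rw [show i * (q * T + 1) + v = (v + i) + (i * q) * T by ring, hper]
  rw [Finset.sum_congr rfl h1]
  have h2 : coeff (u + v) (gs 1 * Q) =
      ∑ j ∈ range v, coeff j Q + ∑ i ∈ range (u + 1), coeff (v + i) Q := by
    rw [coeff_gs_one, ← Finset.sum_range_add]
    congr 2
    ring
  rw [h2, sg_add]
  split_ifs with h3
  · subst h3; simp [sg_zero]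
  · have h4 : coeff (v - 1) (gs 1 * Q) = ∑ j ∈ range v, coeff j Q := by
      rw [coeff_gs_one]
      congr 2
      omega
    rw [h4, mul_right_comm, sg_sq, one_mul]

/-- the mean of `(-1)^p(n)` for the parts `a 0, ..., a (k-1)` and `m` parts `1` -/
noncomputable def e (a : ℕ → ℕ) (k m : ℕ) : ℝ :=
  (∑ n ∈ range (2 ^ (k + m) * ∏ i ∈ range k, a i), sg (coeff n (P a k m))) /
    ((2 ^ (k + m) * ∏ i ∈ range k, a i : ℕ) : ℝ)

lemma prod_pos' {a : ℕ → ℕ} (ha : ∀ i, 1 ≤ a i) (k : ℕ) : 0 < ∏ i ∈ range k, a i :=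
  Finset.prod_pos fun i _ => ha i

lemma hasMean_of_period {f : ℕ → ℝ} {T : ℕ} (hT : 0 < T) (h : ∀ n, f (n + T) = f n) :
    HasMean f ((∑ n ∈ range T, f n) / T) := by
  refine ⟨T, hT, h, ?_⟩
  have : (T : ℝ) ≠ 0 := by exact_mod_cast hT.ne'
  field_simp

lemma hasMean_e {a : ℕ → ℕ} (ha : ∀ i, 1 ≤ a i) {k m : ℕ} (hkm : 1 ≤ k + m) :
    HasMean (fun n => sg (coeff n (P a k m))) (e a k m) := by
  unfold e
  apply hasMean_of_period (Nat.mul_pos (by positivity) (prod_pos' ha k))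
  intro n
  rw [P_period a ha _ k m (k + m) (fun i hi => Finset.dvd_prod_of_mem _ (Finset.mem_range.2 hi))
    hkm Nat.lt_two_pow_self.le]

/-- the squaring recursion -/
lemma e_step {a : ℕ → ℕ} (ha : ∀ i, 1 ≤ a i) {k m : ℕ} (hk : 1 ≤ k) (hkm : k + m + 1 ≤ 2 ^ k)
    (hd : 2 ^ k * ∏ i ∈ range k, a i ∣ a k - 1) :
    e a (k + 1) m = (e a k (m + 1)) ^ 2 + e a k (m + 1) * (1 - e a k (m + 1)) / (a k : ℝ) := by
  set T := 2 ^ k * ∏ i ∈ range k, a i with hT
  have hT0 : 0 < T := Nat.mul_pos (by positivity) (prod_pos' ha k)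
  obtain ⟨q, hq⟩ := hd
  have hak : a k = q * T + 1 := by have := ha k; rw [mul_comm] at hq; omega
  have hdvd : ∀ i < k, a i ∣ ∏ i ∈ range k, a i :=
    fun i hi => Finset.dvd_prod_of_mem _ (Finset.mem_range.2 hi)
  have hQ : ∀ n, coeff (n + T) (P a k m) = coeff n (P a k m) := fun n =>
    P_period a ha _ k m k hdvd (by omega) (by omega) n
  have hQ1 : ∀ n, coeff (n + T) (P a k (m + 1)) = coeff n (P a k (m + 1)) := fun n =>
    P_period a ha _ k (m + 1) k hdvd (by omega) (by omega) n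
  have hg : ∀ n, (fun n => sg (coeff n (P a k (m + 1)))) (n + T) =
      (fun n => sg (coeff n (P a k (m + 1)))) n := fun n => by
    dsimp only; rw [hQ1]
  -- the mean
  have hG : ∑ n ∈ range T, (fun n => sg (coeff n (P a k (m + 1)))) n = T * e a k (m + 1) := by
    have h1 := hasMean_of_period (f := fun n => sg (coeff n (P a k (m + 1)))) hT0 hg
    have h2 := h1.unique (hasMean_e ha (show 1 ≤ k + (m + 1) by omega))
    rw [← h2]
    have : (T : ℝ) ≠ 0 := by exact_mod_cast hT0.ne'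
    field_simp
  have h3 := mean_step (q := q) (w := fun n => sg (coeff n (P a (k + 1) m))) hT0 hg hG (by
    intro u v hv
    have := coeff_block (P a k m) hQ u v hv
    rw [P_succ_left, hak, this, ← P_succ_right])
  rw [← hak] at h3
  exact (hasMean_e ha (show 1 ≤ k + 1 + m by omega)).unique h3

lemma e_ineq {a : ℕ → ℕ} (ha : ∀ i, 1 ≤ a i) {k m : ℕ} (hkm : 1 ≤ k + m) :
    (1 - e a k m) / 2 ≤ 1 - |e a (k + 1) m| := by
  refine mean_ineq (b := a k) (hasMean_e ha hkm) (hasMean_e ha (show 1 ≤ k + 1 + m by omega))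
    (fun n => ?_) (fun n => (sg_abs _).le)
  rw [← sg_add, P_succ_left, coeff_gs_add (ha k)]
  congr 1
  have h2 : ∀ x y : ZMod 2, y = x + y + x := by decide
  exact h2 _ _

lemma coeff_zero_P {a : ℕ → ℕ} (ha : ∀ i, 1 ≤ a i) (k m : ℕ) : coeff 0 (P a k m) = 1 := by
  induction k with
  | zero =>
    induction m with
    | zero => simp [P]
    | succ m ih => rw [P_succ_right, coeff_gs_lt le_rfl _ Nat.zero_lt_one, ih]
  | succ k ih => rw [P_succ_left, coeff_gs_lt (ha k) _ (ha k), ih]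

lemma e_zero_le {a : ℕ → ℕ} (ha : ∀ i, 1 ≤ a i) {m s : ℕ} (hm : 1 ≤ m) (hs : m ≤ 2 ^ s) :
    2 * (1 / 2 : ℝ) ^ s ≤ 1 - e a 0 m := by
  have hper : ∀ n, (fun n => sg (coeff n (P a 0 m))) (n + 2 ^ s) =
      (fun n => sg (coeff n (P a 0 m))) n := by
    intro n
    have := P_period a ha 1 0 m s (fun i hi => by omega) (by omega) (by omega) n
    rw [mul_one] at this
    dsimp only
    rw [this]
  have h1 := (hasMean_of_period (by positivity : 0 < 2 ^ s) hper).unique
    (hasMean_e ha (show 1 ≤ 0 + m by omega))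
  rw [← h1]
  have h2 : ∑ n ∈ range (2 ^ s), sg (coeff n (P a 0 m)) ≤ 2 ^ s - 2 := by
    obtain ⟨M, hM⟩ : ∃ M, 2 ^ s = M + 1 := ⟨2 ^ s - 1, by
      have : 0 < 2 ^ s := by positivity
      omega⟩
    have hM' : (2 : ℝ) ^ s = M + 1 := by exact_mod_cast hM
    rw [hM, Finset.sum_range_succ', coeff_zero_P ha, hM']
    have h3 : ∑ n ∈ range M, sg (coeff (n + 1) (P a 0 m)) ≤ ∑ n ∈ range M, (1 : ℝ) :=
      Finset.sum_le_sum fun n _ => (le_abs_self _).trans (sg_abs _).le
    simp only [Finset.sum_const, Finset.card_range, nsmul_eq_mul, mul_one] at h3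
    have h4 : sg 1 = -1 := by unfold sg; rw [if_neg (by decide)]
    rw [h4]
    linarith
  have h3 : (0 : ℝ) < 2 ^ s := by positivity
  push_cast
  rw [show (1 / 2 : ℝ) ^ s = 1 / 2 ^ s by rw [div_pow, one_pow]]
  rw [le_sub_iff_add_le, ← le_sub_iff_add_le', div_le_iff₀ h3]
  field_simp
  linarith

lemma e_le {a : ℕ → ℕ} (ha : ∀ i, 1 ≤ a i) {m s : ℕ} (hm : 1 ≤ m) (hs : m ≤ 2 ^ s) (k : ℕ) :
    2 * (1 / 2 : ℝ) ^ s * (1 / 2) ^ k ≤ 1 - e a k m := by
  induction k with
  | zero => simpa using e_zero_le ha hm hs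
  | succ k ih =>
    have h1 := e_ineq ha (show 1 ≤ k + m by omega)
    have h2 := le_abs_self (e a (k + 1) m)
    rw [pow_succ]
    linarith

lemma abs_e_le {a : ℕ → ℕ} (ha : ∀ i, 1 ≤ a i) {m s : ℕ} (hm : 1 ≤ m) (hs : m ≤ 2 ^ s) (k : ℕ)
    (hk : 1 ≤ k) : (1 / 2 : ℝ) ^ s * (1 / 2) ^ k ≤ 1 - |e a k m| := by
  obtain ⟨j, rfl⟩ : ∃ j, k = j + 1 := ⟨k - 1, by omega⟩
  have h1 := e_ineq ha (show 1 ≤ j + m by omega)
  have h2 := e_le ha hm hs j
  have h3 : (0 : ℝ) ≤ (1 / 2 : ℝ) ^ s * (1 / 2) ^ j := by positivity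
  rw [pow_succ]
  linarith

/-! ### The dynamics of `x ↦ x² + x (1 - x) / A` -/

lemma F_small {A x : ℝ} (hA : 5 ≤ A) (hx : |x| ≤ 1 / 2) :
    |x ^ 2 + x * (1 - x) / A| ≤ 4 / 5 * |x| := by
  have h1 : x ^ 2 + x * (1 - x) / A = x * (x + (1 - x) / A) := by ring
  rw [h1, abs_mul, mul_comm]
  apply mul_le_mul_of_nonneg_right _ (abs_nonneg _)
  have h2 := abs_le.1 hx
  have hA0 : 0 < A := by linarith
  have h3 : |(1 - x) / A| ≤ 3 / 10 := by
    rw [abs_div, abs_of_pos hA0, div_le_iff₀ hA0, abs_of_nonneg (by linarith)]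
    linarith
  calc |x + (1 - x) / A| ≤ |x| + |(1 - x) / A| := abs_add_le _ _
    _ ≤ 4 / 5 := by linarith

lemma F_large {A x : ℝ} (hA : 5 ≤ A) (hx : 1 / 2 < |x|) (hx1 : |x| ≤ 1) :
    4 / 3 * (1 - |x|) ≤ 1 - |x ^ 2 + x * (1 - x) / A| := by
  have hA0 : 0 < A := by linarith
  have h1 : x ^ 2 + x * (1 - x) / A = x * (x + (1 - x) / A) := by ring
  rw [h1, abs_mul]
  have hinv : 1 / A ≤ 1 / 5 := one_div_le_one_div_of_le (by norm_num) hA
  have hinv0 : 0 ≤ 1 / A := by positivity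
  have h4 : (1 - x) / A = (1 - x) * (1 / A) := by ring
  rw [h4]
  set t := 1 / A
  rcases abs_cases x with ⟨h2, h3⟩ | ⟨h2, h3⟩
  · rw [h2] at hx hx1 ⊢
    rw [abs_of_nonneg (by nlinarith)]
    nlinarith [mul_nonneg (sub_nonneg.2 hx1) (sub_nonneg.2 hinv),
      mul_nonneg (mul_nonneg (sub_nonneg.2 hx1) (sub_nonneg.2 hinv)) h3,
      mul_nonneg (sub_nonneg.2 hx1) (sub_nonneg.2 hx.le)]
  · rw [h2] at hx hx1 ⊢
    have h5 : x + (1 - x) * t ≤ 0 := by nlinarith
    rw [abs_of_nonpos h5]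
    have h6 : 0 ≤ (1 - x) * t := by nlinarith
    nlinarith [mul_nonneg (sub_nonneg.2 hx1) (sub_nonneg.2 hx.le)]

lemma dynamics {y A : ℕ → ℝ} {N : ℕ} (hA : ∀ j < N, 5 ≤ A j)
    (hy : ∀ j < N, y (j + 1) = y j ^ 2 + y j * (1 - y j) / A j) {c : ℝ} (hc : 0 < c)
    (h0 : c ≤ 1 - |y 0|) {J : ℕ} (hJ : 1 / 2 ≤ (4 / 3 : ℝ) ^ J * c) (l : ℕ) (hl : J + l ≤ N) :
    |y (J + l)| ≤ (4 / 5) ^ l := by
  have h1 : ∀ j ≤ N, min (1 / 2) ((4 / 3 : ℝ) ^ j * c) ≤ 1 - |y j| := by
    intro j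
    induction j with
    | zero => intro _; simpa using (min_le_right _ _).trans h0
    | succ j ih =>
      intro hj
      have ih := ih (by omega)
      rw [hy j (by omega)]
      have hAj := hA j (by omega)
      rcases le_or_gt |y j| (1 / 2) with h2 | h2
      · have := F_small hAj h2
        refine (min_le_left _ _).trans ?_
        linarith
      · have h3 : 0 ≤ 1 - |y j| := le_trans (le_min (by norm_num) (by positivity)) ih
        have := F_large hAj h2 (by linarith)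
        refine le_trans ?_ this
        refine (min_le_right _ _).trans ?_
        have h4 : (4 / 3 : ℝ) ^ j * c ≤ 1 - |y j| := by
          rcases min_le_iff.1 ih with h5 | h5
          · linarith
          · exact h5
        rw [pow_succ]
        linarith
  induction l with
  | zero =>
    have := h1 J (by omega)
    rw [min_eq_left hJ] at this
    rw [add_zero, pow_zero]
    linarith
  | succ l ih =>
    have ih := ih (by omega)
    have h2 : |y (J + l)| ≤ 1 / 2 := by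
      have h3 := h1 (J + l) (by omega)
      have h4 : 1 / 2 ≤ (4 / 3 : ℝ) ^ (J + l) * c := by
        refine hJ.trans ?_
        apply mul_le_mul_of_nonneg_right _ hc.le
        exact pow_le_pow_right₀ (by norm_num) (by omega)
      rw [min_eq_left h4] at h3
      linarith
    have h3 := F_small (hA (J + l) (by omega)) h2
    rw [← add_assoc, hy (J + l) (by omega), pow_succ (4 / 5 : ℝ) l]
    linarith

theorem abs_e_small {a : ℕ → ℕ} (ha : ∀ i, 1 ≤ a i) {k₀ : ℕ}
    (hd : ∀ k, k₀ ≤ k → 2 ^ k * ∏ i ∈ range k, a i ∣ a k - 1)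
    (h1 : ∀ k, k₀ ≤ k → 1 < a k) {k K : ℕ} (hK0 : k₀ ≤ K) (hK2 : 2 ≤ K) (hkK : k ≤ 2 ^ K)
    (hk : 6 * K < k) : |e a k 0| ≤ (4 / 5) ^ (k - 6 * K) := by
  have hA : ∀ i, k₀ ≤ i → 2 ≤ i → (5 : ℝ) ≤ a i := by
    intro i hi hi2
    obtain ⟨q, hq⟩ := hd i hi
    have h2 := h1 i hi
    have h3 : 4 ≤ a i - 1 := by
      have hq0 : q ≠ 0 := by
        rintro rfl
        rw [mul_zero] at hq
        omega
      rw [hq]
      have h4 : 4 ≤ 2 ^ i := by
        calc 4 = 2 ^ 2 := by norm_num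
          _ ≤ 2 ^ i := Nat.pow_le_pow_right (by norm_num) hi2
      have h5 : 1 ≤ (∏ j ∈ range i, a j) := prod_pos' ha i
      calc 4 = 4 * 1 * 1 := by norm_num
        _ ≤ 2 ^ i * (∏ j ∈ range i, a j) * q :=
          Nat.mul_le_mul (Nat.mul_le_mul h4 h5) (Nat.one_le_iff_ne_zero.2 hq0)
    have : 5 ≤ a i := by omega
    exact_mod_cast this
  have h0 := abs_e_le ha (show 1 ≤ k - K by omega) (show k - K ≤ 2 ^ K by omega) K (by omega)
  have hdyn := dynamics (y := fun j => e a (K + j) (k - K - j)) (A := fun j => (a (K + j) : ℝ))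
    (N := k - K) (c := (1 / 2 : ℝ) ^ K * (1 / 2) ^ K) (J := 5 * K)
    (fun j _ => hA _ (by omega) (by omega))
    (fun j hj => by
      have hpow : 2 ^ K ≤ 2 ^ (K + j) := Nat.pow_le_pow_right (by norm_num) (by omega)
      have h2 := e_step ha (k := K + j) (m := k - K - (j + 1)) (by omega) (by omega)
        (hd (K + j) (by omega))
      have h3 : k - K - (j + 1) + 1 = k - K - j := by omega
      rw [h3] at h2
      exact h2)
    (by positivity) (by simpa using h0)
    (by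
      have h2 : (1 : ℝ) ≤ (4 / 3 : ℝ) ^ (5 * K) * ((1 / 2 : ℝ) ^ K * (1 / 2) ^ K) := by
        rw [pow_mul, ← mul_pow, ← mul_pow]
        apply one_le_pow₀
        norm_num
      linarith)
    (k - 6 * K) (by omega)
  have h4 : K + (5 * K + (k - 6 * K)) = k := by omega
  have h5 : k - K - (5 * K + (k - 6 * K)) = 0 := by omega
  simp only [h4, h5] at hdyn
  exact hdyn

end Pool.Agent.Q51.PD
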